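import Pool.Agent.Lib.MP_89d95d_co.Decomposable

set_option autoImplicit false

namespace Pool.Agent.Lib.MP_89d95d_co

section

variable {V : Type} {G : SimpleGraph V} {k : ℕ} {p : V → Fin k}

/-- The independent transversals of the clique partition `p`. -/
def transversals (G : SimpleGraph V) (p : V → Fin k) : Set (∀ i : Fin k, {v : V // p v = i}) :=
  {x | ∀ i j, ¬ G.Adj (x i).1 (x j).1}

theorem exists_transversal (hp : ∀ u v, u ≠ v → p u = p v → G.Adj u v)
    (hk : ∀ S, IsIndepDom G S → S.card = k) {S : Finset V} (hS : IsIndepDom G S) :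
    ∃ x ∈ transversals G p, ∀ v ∈ S, v = (x (p v)).1 := by
  classical
  have hinj : Set.InjOn p S := by
    intro u hu v hv h
    by_contra hne
    exact hS.1 u hu v hv (hp u v hne h)
  have himg : S.image p = Finset.univ := by
    apply Finset.eq_univ_of_card
    rw [Finset.card_image_of_injOn hinj, hk S hS, Fintype.card_fin]
  have hex : ∀ i : Fin k, ∃ v ∈ S, p v = i := by
    intro i
    have : i ∈ S.image p := by rw [himg]; simp
    simpa using this
  choose f hf hfp using hex
  refine ⟨fun i => ⟨f i, hfp i⟩, fun i j => hS.1 _ (hf i) _ (hf j), fun v hv => ?_⟩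
  exact hinj hv (hf _) (hfp _).symm

theorem twoDecomposable_transversals [Finite V] (hp : ∀ u v, u ≠ v → p u = p v → G.Adj u v)
    (hk : ∀ S, IsIndepDom G S → S.card = k) : TwoDecomposable (transversals G p) := by
  classical
  constructor
  · obtain ⟨S, -, hS⟩ := exists_extend (G := G) ∅ (by simp)
    obtain ⟨x, hx, -⟩ := exists_transversal hp hk hS
    exact ⟨x, hx⟩
  · intro D x hx
    obtain ⟨S, hsub, hS⟩ := exists_extend (G := G)
      ((Finset.univ.filter fun i => i ∈ D).image fun i => (x i).1) (by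
        intro u hu v hv
        obtain ⟨i, hi, rfl⟩ := Finset.mem_image.1 hu
        obtain ⟨j, hj, rfl⟩ := Finset.mem_image.1 hv
        obtain ⟨m, hm, h1, h2⟩ := hx i (Finset.mem_filter.1 hi).2 j (Finset.mem_filter.1 hj).2
        rw [← h1, ← h2]
        exact hm i j)
    obtain ⟨y, hy, hyS⟩ := exists_transversal hp hk hS
    refine ⟨y, hy, fun i hi => ?_⟩
    have h1 : (x i).1 ∈ S :=
      hsub (Finset.mem_image.2 ⟨i, Finset.mem_filter.2 ⟨Finset.mem_univ i, hi⟩, rfl⟩)
    have h2 := hyS _ h1
    apply Subtype.ext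
    rw [(x i).2] at h2
    exact h2.symm

theorem seedGraph_transversals [Finite V] (hp : ∀ u v, u ≠ v → p u = p v → G.Adj u v)
    (hk : ∀ S, IsIndepDom G S → S.card = k) :
    Nonempty (G ≃g seedGraph (transversals G p)) := by
  classical
  have hpair : ∀ u v, ¬ G.Adj u v →
      ∃ m ∈ transversals G p, m (p u) = ⟨u, rfl⟩ ∧ m (p v) = ⟨v, rfl⟩ := by
    intro u v huv
    obtain ⟨S, hsub, hS⟩ := exists_extend (G := G) {u, v} (by
      intro a ha b hb
      rw [Finset.mem_insert, Finset.mem_singleton] at ha hb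
      rcases ha with rfl | rfl <;> rcases hb with rfl | rfl
      · exact G.loopless.irrefl _
      · exact huv
      · exact fun h => huv h.symm
      · exact G.loopless.irrefl _)
    obtain ⟨y, hy, hyS⟩ := exists_transversal hp hk hS
    exact ⟨y, hy, Subtype.ext (hyS u (hsub (by simp))).symm,
      Subtype.ext (hyS v (hsub (by simp))).symm⟩
  let f : V → Label (transversals G p) := fun v =>
    ⟨⟨p v, ⟨v, rfl⟩⟩, by
      obtain ⟨m, hm, h, -⟩ := hpair v v (G.loopless.irrefl v)
      exact ⟨m, hm, h⟩⟩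
  have hf : Function.Bijective f := by
    constructor
    · intro u v h
      have h1 : (⟨p u, ⟨u, rfl⟩⟩ : (i : Fin k) × {v : V // p v = i}) = ⟨p v, ⟨v, rfl⟩⟩ :=
        congrArg Subtype.val h
      exact congrArg (fun q : (i : Fin k) × {v : V // p v = i} => q.2.1) h1
    · rintro ⟨⟨i, ⟨v, rfl⟩⟩, h⟩
      exact ⟨v, rfl⟩
  refine ⟨{ toEquiv := Equiv.ofBijective f hf, map_rel_iff' := fun {u v} => ?_ }⟩
  change (¬ ∃ m ∈ transversals G p, m (p u) = ⟨u, rfl⟩ ∧ m (p v) = ⟨v, rfl⟩) ↔ G.Adj u v
  constructor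
  · intro h
    by_contra huv
    exact h (hpair u v huv)
  · rintro h ⟨m, hm, h1, h2⟩
    have := hm (p u) (p v)
    rw [h1, h2] at this
    exact this h

end

/-- The i-graphs of the well-covered graphs that can be partitioned into as many cliques as they
have independent vertices are exactly the Hamming graphs on 2-decomposable sets. -/
theorem hasCliquePartitionedSeed_iff (k : ℕ) {W : Type} (H : SimpleGraph W) :
    HasCliquePartitionedSeed k H ↔
      ∃ (A : Fin k → Type) (_ : ∀ i, Finite (A i)) (M : Set (∀ i, A i)),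
        TwoDecomposable M ∧ Nonempty (H ≃g hammingGraph M) := by
  constructor
  · rintro ⟨V, _, G, p, hp, hk, ⟨e⟩⟩
    refine ⟨fun i => {v : V // p v = i}, fun i => inferInstance, transversals G p,
      twoDecomposable_transversals hp hk, ?_⟩
    obtain ⟨g⟩ := seedGraph_transversals hp hk
    obtain ⟨h⟩ := iGraph_seedGraph (twoDecomposable_transversals hp hk)
    exact ⟨(e.trans (iGraphCongr g)).trans h.symm⟩
  · rintro ⟨A, _, M, hM, ⟨e⟩⟩
    obtain ⟨h⟩ := iGraph_seedGraph hM
    refine ⟨Label M, inferInstance, seedGraph M, fun q => q.1.1, ?_, fun S hS => ?_,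
      ⟨e.trans h⟩⟩
    · rintro u v hne huv ⟨m, hm, h1, h2⟩
      apply hne
      rw [eq_lab hm h1, eq_lab hm h2]
      change u.1.1 = v.1.1 at huv
      rw [huv]
    · rw [card_of_isIndepDom_seedGraph hM S hS, Fintype.card_fin]

end Pool.Agent.Lib.MP_89d95d_co
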