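import Pool.Agent.Lib.MP_89d95d_co.Defs

set_option autoImplicit false

namespace Pool.Agent.Lib.MP_89d95d_co

variable {V : Type} {G : SimpleGraph V}

/-- Every independent set of a finite graph extends to an independent dominating set. -/
theorem exists_extend [Finite V] (S : Finset V) (hS : ∀ u ∈ S, ∀ v ∈ S, ¬ G.Adj u v) :
    ∃ T, S ⊆ T ∧ IsIndepDom G T := by
  classical
  have := Fintype.ofFinite V
  obtain ⟨T, hT, hmax⟩ := Finset.exists_max_image
    (Finset.univ.filter fun T : Finset V => S ⊆ T ∧ ∀ u ∈ T, ∀ v ∈ T, ¬ G.Adj u v)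
    Finset.card ⟨S, by simpa using hS⟩
  simp only [Finset.mem_filter, Finset.mem_univ, true_and] at hT hmax
  refine ⟨T, hT.1, hT.2, fun v hv => ?_⟩
  by_contra hcon
  push Not at hcon
  have h1 := hmax (insert v T) ⟨hT.1.trans (Finset.subset_insert v T), ?_⟩
  · rw [Finset.card_insert_of_notMem hv] at h1
    omega
  · intro x hx y hy
    rcases Finset.mem_insert.1 hx with hx1 | hx1
    · rcases Finset.mem_insert.1 hy with hy1 | hy1
      · rw [hx1, hy1]
        exact G.loopless.irrefl _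
      · rw [hx1]
        exact hcon y hy1
    · rcases Finset.mem_insert.1 hy with hy1 | hy1
      · rw [hy1]
        exact fun h => hcon x hx1 h.symm
      · exact hT.2 x hx1 y hy1

theorem WellCovered.isISet (hwc : WellCovered G) {S : Finset V} (hS : IsIndepDom G S) :
    IsISet G S :=
  ⟨hS, fun T hT => (hwc S T hS hT).le⟩

/-- In a finite well-covered graph an independent set as large as an independent dominating set is
an i-set. -/
theorem WellCovered.isISet_of_card [Finite V] (hwc : WellCovered G) {S X : Finset V}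
    (hS : ∀ u ∈ S, ∀ v ∈ S, ¬ G.Adj u v) (hX : IsIndepDom G X) (hcard : S.card = X.card) :
    IsISet G S := by
  obtain ⟨T, hST, hT⟩ := exists_extend S hS
  have h : S = T := Finset.eq_of_subset_of_card_le hST (by rw [hcard, hwc X T hX hT])
  rw [h]
  exact hwc.isISet hT

theorem Slide.data {X Y : Finset V} (hX : ∀ u ∈ X, ∀ v ∈ X, ¬ G.Adj u v) (h : Slide G X Y) :
    ∃ a b, a ∈ X ∧ b ∉ X ∧ G.Adj a b ∧ ∀ w, w ∈ Y ↔ (w ∈ X ∧ w ≠ a) ∨ w = b := by
  obtain ⟨_, u, hu, v, _, huv, hw⟩ := h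
  exact ⟨u, v, hu, fun hvX => hX u hu v hvX huv, huv, hw⟩

/-- If an independent set `Z` arises from an independent dominating set `X` by exchanging one
vertex, then the two exchanged vertices are adjacent. -/
theorem slide_of_exchange {X Z : Finset V} {a d : V} (hX : IsIndepDom G X)
    (hZ : ∀ u ∈ Z, ∀ v ∈ Z, ¬ G.Adj u v) (ha : a ∈ X) (hd : d ∉ X)
    (hZe : ∀ w, w ∈ Z ↔ (w ∈ X ∧ w ≠ a) ∨ w = d) : Slide G X Z := by
  have hdZ : d ∈ Z := (hZe d).2 (Or.inr rfl)
  refine ⟨fun h => hd (h ▸ hdZ), a, ha, d, hdZ, ?_, hZe⟩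
  obtain ⟨u, hu, hdu⟩ := hX.2 d hd
  by_cases hua : u = a
  · exact hua ▸ hdu.symm
  · exact absurd hdu (hZ d hdZ u ((hZe u).2 (Or.inl ⟨hu, hua⟩)))

theorem square_aux {X Y Z : Finset V} {a b c d : V} (hX : IsIndepDom G X)
    (hZ : IsIndepDom G Z) (ha : a ∈ X) (hb : b ∉ X)
    (hY : ∀ w, w ∈ Y ↔ (w ∈ X ∧ w ≠ a) ∨ w = b)
    (hXZ : X ≠ Z) (hXZ' : ¬ Slide G X Z) (hd : d ∉ Y)
    (hZe : ∀ w, w ∈ Z ↔ (w ∈ Y ∧ w ≠ c) ∨ w = d) : c ≠ b := by
  rintro rfl
  have hZe' : ∀ w, w ∈ Z ↔ (w ∈ X ∧ w ≠ a) ∨ w = d := by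
    intro w
    rw [hZe, hY]
    constructor
    · rintro (⟨h1 | h1, h2⟩ | h)
      · exact Or.inl h1
      · exact absurd h1 h2
      · exact Or.inr h
    · rintro (⟨h1, h2⟩ | h)
      · exact Or.inl ⟨Or.inl ⟨h1, h2⟩, fun h => hb (h ▸ h1)⟩
      · exact Or.inr h
  by_cases hda : d = a
  · subst hda
    apply hXZ
    ext w
    rw [hZe']
    constructor
    · intro h
      by_cases hw : w = d
      · exact Or.inr hw
      · exact Or.inl ⟨h, hw⟩
    · rintro (h | h)
      · exact h.1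
      · exact h ▸ ha
  · have hdX : d ∉ X := fun h => hd ((hY d).2 (Or.inl ⟨h, hda⟩))
    exact hXZ' (slide_of_exchange hX hZ.1 ha hdX hZe')

/-- The labels of an induced `4`-cycle in an i-graph. -/
theorem square {X Y W Z : Finset V} {a b a' b' : V} (hX : IsIndepDom G X) (hY : IsIndepDom G Y)
    (hW : IsIndepDom G W) (hZ : IsIndepDom G Z)
    (ha : a ∈ X) (hb : b ∉ X) (hab : G.Adj a b) (hYe : ∀ w, w ∈ Y ↔ (w ∈ X ∧ w ≠ a) ∨ w = b)
    (ha' : a' ∈ X) (hb' : b' ∉ X) (hab' : G.Adj a' b')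
    (hWe : ∀ w, w ∈ W ↔ (w ∈ X ∧ w ≠ a') ∨ w = b')
    (hYW : Y ≠ W) (hYW' : ¬ Slide G Y W) (hXZ : X ≠ Z) (hXZ' : ¬ Slide G X Z)
    (hYZ : Slide G Y Z) (hWZ : Slide G W Z) :
    a ≠ a' ∧ b ≠ b' ∧ ¬ G.Adj b b' ∧
      ∀ w, w ∈ Z ↔ (w ∈ X ∧ w ≠ a ∧ w ≠ a') ∨ w = b ∨ w = b' := by
  have hbY : b ∈ Y := (hYe b).2 (Or.inr rfl)
  have hbW' : b' ∈ W := (hWe b').2 (Or.inr rfl)
  have haa : a ≠ a' := by
    rintro rfl
    have hbb : b ≠ b' := by
      rintro rfl
      apply hYW
      ext w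
      rw [hYe, hWe]
    have hb'Y : b' ∉ Y := by
      rw [hYe]
      rintro (h | h)
      · exact hb' h.1
      · exact hbb h.symm
    refine hYW' (slide_of_exchange hY hW.1 hbY hb'Y fun w => ?_)
    rw [hWe, hYe]
    constructor
    · rintro (⟨h1, h2⟩ | h)
      · exact Or.inl ⟨Or.inl ⟨h1, h2⟩, fun h => hb (h ▸ h1)⟩
      · exact Or.inr h
    · rintro (⟨h1 | h1, h2⟩ | h)
      · exact Or.inl h1
      · exact absurd h1 h2
      · exact Or.inr h
  obtain ⟨c, d, hc, hd, -, hZY⟩ := hYZ.data hY.1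
  obtain ⟨c', d', hc', hd', -, hZW⟩ := hWZ.data hW.1
  have hcb : c ≠ b := square_aux hX hZ ha hb hYe hXZ hXZ' hd hZY
  have hcb' : c' ≠ b' := square_aux hX hZ ha' hb' hWe hXZ hXZ' hd' hZW
  have haW : a ∈ W := (hWe a).2 (Or.inl ⟨ha, haa⟩)
  have haY' : a' ∈ Y := (hYe a').2 (Or.inl ⟨ha', haa.symm⟩)
  have hbb : b ≠ b' := by
    rintro rfl
    exact hW.1 a haW b hbW' hab
  have hbZ : b ∈ Z := (hZY b).2 (Or.inl ⟨hbY, hcb.symm⟩)
  have hbZ' : b' ∈ Z := (hZW b').2 (Or.inl ⟨hbW', hcb'.symm⟩)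
  have hbW : b ∉ W := by
    rw [hWe]
    rintro (h | h)
    · exact hb h.1
    · exact hbb h
  have hb'Y : b' ∉ Y := by
    rw [hYe]
    rintro (h | h)
    · exact hb' h.1
    · exact hbb h.symm
  have hd1 : b' = d := by
    rcases (hZY b').1 hbZ' with h | h
    · exact absurd h.1 hb'Y
    · exact h
  have haY : a' ∉ W := by
    rw [hWe]
    rintro (h | h)
    · exact h.2 rfl
    · exact hb' (h ▸ ha')
  have haZ : a' ∉ Z := by
    rw [hZW]
    rintro (h | h)
    · exact haY h.1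
    · have h3 : b = d' := by
        rcases (hZW b).1 hbZ with h | h
        · exact absurd h.1 hbW
        · exact h
      exact hb (by rw [h3, ← h]; exact ha')
  have hca : a' = c := by
    by_contra hne
    exact haZ ((hZY a').2 (Or.inl ⟨haY', hne⟩))
  refine ⟨haa, hbb, hZ.1 b hbZ b' hbZ', fun w => ?_⟩
  rw [hZY, hYe, ← hca, ← hd1]
  constructor
  · rintro (⟨⟨h1, h2⟩ | h1, h3⟩ | h)
    · exact Or.inl ⟨h1, h2, h3⟩
    · exact Or.inr (Or.inl h1)
    · exact Or.inr (Or.inr h)
  · rintro (⟨h1, h2, h3⟩ | h | h)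
    · exact Or.inl ⟨Or.inl ⟨h1, h2⟩, h3⟩
    · exact Or.inl ⟨Or.inr h, fun h' => hb (by rw [← h, h']; exact ha')⟩
    · exact Or.inr h

theorem cubeCompletion_iGraph [Finite V] (hwc : WellCovered G) : CubeCompletion (iGraph G) := by
  classical
  intro k v w u hw hww hu
  have hdata : ∀ i, ∃ a b, a ∈ v.1 ∧ b ∉ v.1 ∧ G.Adj a b ∧
      ∀ x, x ∈ (w i).1 ↔ (x ∈ v.1 ∧ x ≠ a) ∨ x = b := fun i =>
    Slide.data v.2.1.1 (hw i)
  choose a b ha hb hab hwe using hdata
  have hsq : ∀ i j, i ≠ j → a i ≠ a j ∧ b i ≠ b j ∧ ¬ G.Adj (b i) (b j) ∧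
      ∀ x, x ∈ (u i j).1 ↔ (x ∈ v.1 ∧ x ≠ a i ∧ x ≠ a j) ∨ x = b i ∨ x = b j := by
    intro i j hij
    obtain ⟨h1, h2⟩ := hww i j hij
    obtain ⟨h3, h4, h5, h6⟩ := hu i j hij
    exact square v.2.1 (w i).2.1 (w j).2.1 (u i j).2.1 (ha i) (hb i) (hab i) (hwe i)
      (ha j) (hb j) (hab j) (hwe j) (fun h => h1 (Subtype.ext h)) h2
      (fun h => h3 (Subtype.ext h)) h4 h5 h6
  have ainj : Function.Injective a := by
    intro i j h
    by_contra hij
    exact (hsq i j hij).1 h
  have binj : Function.Injective b := by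
    intro i j h
    by_contra hij
    exact (hsq i j hij).2.1 h
  -- the sets
  let c0 : Finset (Fin k) → Finset V := fun A => (v.1 \ A.image a) ∪ A.image b
  have hmem : ∀ A x, x ∈ c0 A ↔ (x ∈ v.1 ∧ ∀ i ∈ A, x ≠ a i) ∨ ∃ i ∈ A, x = b i := by
    intro A x
    simp only [c0, Finset.mem_union, Finset.mem_sdiff, Finset.mem_image, not_exists, not_and]
    constructor
    · rintro (⟨h1, h2⟩ | ⟨i, h1, h2⟩)
      · exact Or.inl ⟨h1, fun i hi h => h2 i hi h.symm⟩
      · exact Or.inr ⟨i, h1, h2.symm⟩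
    · rintro (⟨h1, h2⟩ | ⟨i, h1, h2⟩)
      · exact Or.inl ⟨h1, fun i hi h => h2 i hi h.symm⟩
      · exact Or.inr ⟨i, h1, h2.symm⟩
  have hind : ∀ A, ∀ p ∈ c0 A, ∀ q ∈ c0 A, ¬ G.Adj p q := by
    have key : ∀ A : Finset (Fin k), ∀ p, p ∈ v.1 → (∀ i ∈ A, p ≠ a i) →
        ∀ i ∈ A, ¬ G.Adj p (b i) := by
      intro A p hp hpA i hi
      exact (w i).2.1.1 p ((hwe i p).2 (Or.inl ⟨hp, hpA i hi⟩)) (b i)
        ((hwe i (b i)).2 (Or.inr rfl))
    intro A p hp q hq
    rw [hmem] at hp hq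
    rcases hp with ⟨hp, hpA⟩ | ⟨i, hi, rfl⟩
    · rcases hq with ⟨hq, hqA⟩ | ⟨j, hj, rfl⟩
      · exact v.2.1.1 p hp q hq
      · exact key A p hp hpA j hj
    · rcases hq with ⟨hq, hqA⟩ | ⟨j, hj, rfl⟩
      · exact fun h => key A q hq hqA i hi h.symm
      · by_cases hij : i = j
        · subst hij
          exact G.loopless.irrefl _
        · exact (hsq i j hij).2.2.1
  have hcard : ∀ A, (c0 A).card = v.1.card := by
    intro A
    have h1 : Disjoint (v.1 \ A.image a) (A.image b) := by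
      rw [Finset.disjoint_left]
      intro x hx hx'
      obtain ⟨i, -, rfl⟩ := Finset.mem_image.1 hx'
      exact hb i (Finset.mem_sdiff.1 hx).1
    have h2 : A.image a ⊆ v.1 := by
      intro x hx
      obtain ⟨i, -, rfl⟩ := Finset.mem_image.1 hx
      exact ha i
    have h3 : (A.image a).card = A.card := Finset.card_image_of_injective _ ainj
    have h4 : (A.image b).card = A.card := Finset.card_image_of_injective _ binj
    have h5 := Finset.card_le_card h2
    simp only [c0]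
    rw [Finset.card_union_of_disjoint h1, Finset.card_sdiff_of_subset h2, h3, h4]
    omega
  let c : Finset (Fin k) → {S : Finset V // IsISet G S} := fun A =>
    ⟨c0 A, hwc.isISet_of_card (hind A) v.2.1 (hcard A)⟩
  have hbc : ∀ A i, b i ∈ c0 A ↔ i ∈ A := by
    intro A i
    rw [hmem]
    constructor
    · rintro (h | ⟨j, hj, h⟩)
      · exact absurd h.1 (hb i)
      · rwa [binj h]
    · exact fun h => Or.inr ⟨i, h, rfl⟩
  have hac : ∀ A i, a i ∈ c0 A ↔ i ∉ A := by
    intro A i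
    rw [hmem]
    constructor
    · rintro (⟨h, h2⟩ | ⟨j, hj, h⟩) hi
      · exact h2 i hi rfl
      · exact hb j (h ▸ ha i)
    · intro h
      refine Or.inl ⟨ha i, fun j hj hij => h ?_⟩
      rwa [ainj hij]
  have hinj : Function.Injective c := by
    intro A B hAB
    ext i
    rw [← hbc A i, ← hbc B i]
    have : c0 A = c0 B := congrArg Subtype.val hAB
    rw [this]
  have hstep : ∀ A i, i ∉ A → Slide G (c0 A) (c0 (insert i A)) := by
    intro A i hi
    refine ⟨fun h => hi ?_, a i, (hac A i).2 hi, b i, (hbc _ i).2 (Finset.mem_insert_self i A),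
      hab i, fun x => ?_⟩
    · rw [← hbc A i, h, hbc]
      exact Finset.mem_insert_self i A
    · rw [hmem, hmem]
      simp only [Finset.mem_insert, forall_eq_or_imp, exists_eq_or_imp]
      constructor
      · rintro (⟨h1, h2, h3⟩ | h | ⟨j, hj, h⟩)
        · exact Or.inl ⟨Or.inl ⟨h1, h3⟩, h2⟩
        · exact Or.inr h
        · exact Or.inl ⟨Or.inr ⟨j, hj, h⟩, fun h' => hb j (by rw [← h, h']; exact ha i)⟩
      · rintro (⟨⟨h1, h2⟩ | ⟨j, hj, h⟩, h3⟩ | h)
        · exact Or.inl ⟨h1, h3, h2⟩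
        · exact Or.inr (Or.inr ⟨j, hj, h⟩)
        · exact Or.inr (Or.inl h)
  refine ⟨c, hinj, fun A B => ?_, ?_, fun i => ?_, fun i j hij => ?_⟩
  · constructor
    · intro h
      have hne : A ≠ B := by
        rintro rfl
        exact (iGraph G).loopless.irrefl _ h
      obtain ⟨p, q, hp, hq, hpq, hB⟩ := Slide.data (hind A) h
      have hp1 : p ∉ c0 B := by
        intro hpB
        rcases (hB p).1 hpB with h | h
        · exact h.2 rfl
        · exact hpq.ne h
      have hA' : ∀ x, x ∈ c0 A → x ∉ c0 B → x = p := by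
        intro x hx hx'
        by_contra hne
        exact hx' ((hB x).2 (Or.inl ⟨hx, hne⟩))
      have hB' : ∀ x, x ∈ c0 B → x ∉ c0 A → x = q := by
        intro x hx hx'
        rcases (hB x).1 hx with h | h
        · exact absurd h.1 hx'
        · exact h
      have hle : ∀ i j, i ∈ symmDiff A B → j ∈ symmDiff A B → i = j := by
        intro i j hi hj
        rw [Finset.mem_symmDiff] at hi hj
        rcases hi with ⟨hi1, hi2⟩ | ⟨hi1, hi2⟩
        · rcases hj with ⟨hj1, hj2⟩ | ⟨hj1, hj2⟩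
          · exact binj ((hA' _ ((hbc A i).2 hi1) (mt (hbc B i).1 hi2)).trans
              (hA' _ ((hbc A j).2 hj1) (mt (hbc B j).1 hj2)).symm)
          · exfalso
            have e1 := hA' _ ((hbc A i).2 hi1) (mt (hbc B i).1 hi2)
            have e2 := hA' _ ((hac A j).2 hj2) (by rw [hac]; exact not_not.2 hj1)
            exact hb i (by rw [e1, ← e2]; exact ha j)
        · rcases hj with ⟨hj1, hj2⟩ | ⟨hj1, hj2⟩
          · exfalso
            have e1 := hA' _ ((hbc A j).2 hj1) (mt (hbc B j).1 hj2)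
            have e2 := hA' _ ((hac A i).2 hi2) (by rw [hac]; exact not_not.2 hi1)
            exact hb j (by rw [e1, ← e2]; exact ha i)
          · exact binj ((hB' _ ((hbc B i).2 hi1) (mt (hbc A i).1 hi2)).trans
              (hB' _ ((hbc B j).2 hj1) (mt (hbc A j).1 hj2)).symm)
      have h1 : (symmDiff A B).card ≤ 1 := Finset.card_le_one.2 fun i hi j hj => hle i j hi hj
      have h2 : (symmDiff A B).Nonempty := by
        rw [Finset.nonempty_iff_ne_empty]
        intro h
        apply hne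
        have : symmDiff A B = ⊥ := h
        rwa [symmDiff_eq_bot] at this
      have := h2.card_pos
      omega
    · intro h
      obtain ⟨i, hi⟩ := Finset.card_eq_one.1 h
      have hmemi : i ∈ symmDiff A B := by rw [hi]; simp
      rw [Finset.mem_symmDiff] at hmemi
      have hother : ∀ j, j ≠ i → (j ∈ A ↔ j ∈ B) := by
        intro j hj
        have : j ∉ symmDiff A B := by rw [hi]; simpa using hj
        rw [Finset.mem_symmDiff] at this
        tauto
      rcases hmemi with ⟨h1, h2⟩ | ⟨h1, h2⟩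
      · have hAB : A = insert i B := by
          ext j
          rw [Finset.mem_insert]
          by_cases hj : j = i
          · subst hj; simp [h1]
          · rw [hother j hj]; simp [hj]
        have := hstep B i h2
        rw [← hAB] at this
        exact Slide.symm_of_indep (hind B) this
      · have hAB : B = insert i A := by
          ext j
          rw [Finset.mem_insert]
          by_cases hj : j = i
          · subst hj; simp [h1]
          · rw [← hother j hj]; simp [hj]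
        have := hstep A i h2
        rw [← hAB] at this
        exact this
  · apply Subtype.ext
    ext x
    change x ∈ c0 ∅ ↔ _
    rw [hmem]
    simp
  · apply Subtype.ext
    ext x
    change x ∈ c0 {i} ↔ _
    rw [hmem, hwe]
    simp
  · apply Subtype.ext
    ext x
    change x ∈ c0 {i, j} ↔ _
    rw [hmem, (hsq i j hij).2.2.2]
    simp [Finset.mem_insert]

/-- Every graph with a well-covered seed has the cube completion property. -/
theorem cubeCompletion_of_seed {W : Type} {H : SimpleGraph W} (h : HasWellCoveredSeed H) :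
    CubeCompletion H := by
  obtain ⟨V, _, G, hwc, ⟨e⟩⟩ := h
  intro k v w u hw hww hu
  obtain ⟨c, h1, h2, h3, h4, h5⟩ := cubeCompletion_iGraph hwc k (e v) (fun i => e (w i))
    (fun i j => e (u i j)) (fun i => e.map_adj_iff.2 (hw i))
    (fun i j hij => ⟨fun h => (hww i j hij).1 (e.injective h),
      fun h => (hww i j hij).2 (e.map_adj_iff.1 h)⟩)
    (fun i j hij => ⟨fun h => (hu i j hij).1 (e.injective h),
      fun h => (hu i j hij).2.1 (e.map_adj_iff.1 h), e.map_adj_iff.2 (hu i j hij).2.2.1,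
      e.map_adj_iff.2 (hu i j hij).2.2.2⟩)
  refine ⟨fun A => e.symm (c A), e.symm.injective.comp h1, fun A B => ?_, ?_, fun i => ?_,
    fun i j hij => ?_⟩
  · rw [e.symm.map_adj_iff]
    exact h2 A B
  · change e.symm (c ∅) = v
    rw [h3, e.symm_apply_apply]
  · change e.symm (c {i}) = w i
    rw [h4, e.symm_apply_apply]
  · change e.symm (c {i, j}) = u i j
    rw [h5 i j hij, e.symm_apply_apply]

end Pool.Agent.Lib.MP_89d95d_co
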