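import Pool.Agent.Lib.MP_89d95d_co.Cube

set_option autoImplicit false

namespace Pool.Agent.Lib.MP_89d95d_co

/-! ### i-graphs of isomorphic graphs -/

section Congr

variable {V V' : Type} {G : SimpleGraph V} {G' : SimpleGraph V'}

theorem isIndepDom_map (e : G ≃g G') {S : Finset V} (hS : IsIndepDom G S) :
    IsIndepDom G' (S.map e.toEquiv.toEmbedding) := by
  constructor
  · intro u hu v hv
    obtain ⟨u', hu', rfl⟩ := Finset.mem_map.1 hu
    obtain ⟨v', hv', rfl⟩ := Finset.mem_map.1 hv
    intro h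
    exact hS.1 u' hu' v' hv' (e.map_adj_iff.1 h)
  · intro v hv
    have h1 : e.symm v ∉ S := by
      intro h
      apply hv
      exact Finset.mem_map.2 ⟨e.symm v, h, e.apply_symm_apply v⟩
    obtain ⟨u, hu, hadj⟩ := hS.2 _ h1
    refine ⟨e u, Finset.mem_map.2 ⟨u, hu, rfl⟩, ?_⟩
    rw [← e.apply_symm_apply v]
    exact e.map_adj_iff.2 hadj

theorem isISet_map (e : G ≃g G') {S : Finset V} (hS : IsISet G S) :
    IsISet G' (S.map e.toEquiv.toEmbedding) := by
  refine ⟨isIndepDom_map e hS.1, fun T hT => ?_⟩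
  have := hS.2 _ (isIndepDom_map e.symm hT)
  rw [Finset.card_map] at this ⊢
  exact this

theorem slide_map (e : G ≃g G') {X Y : Finset V} (h : Slide G X Y) :
    Slide G' (X.map e.toEquiv.toEmbedding) (Y.map e.toEquiv.toEmbedding) := by
  obtain ⟨hne, u, hu, v, hv, huv, hw⟩ := h
  refine ⟨fun h => hne (Finset.map_injective _ h), e u, Finset.mem_map.2 ⟨u, hu, rfl⟩, e v,
    Finset.mem_map.2 ⟨v, hv, rfl⟩, e.map_adj_iff.2 huv, fun w => ?_⟩
  have key : ∀ Z : Finset V, w ∈ Z.map e.toEquiv.toEmbedding ↔ e.symm w ∈ Z := by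
    intro Z
    constructor
    · intro h
      obtain ⟨z, hz, rfl⟩ := Finset.mem_map.1 h
      have : e.symm (e.toEquiv.toEmbedding z) = z := e.symm_apply_apply z
      rwa [this]
    · intro h
      exact Finset.mem_map.2 ⟨_, h, e.apply_symm_apply w⟩
  rw [key, key, hw]
  constructor
  · rintro (⟨h1, h2⟩ | h)
    · exact Or.inl ⟨h1, fun h => h2 (by rw [h, e.symm_apply_apply])⟩
    · exact Or.inr (by rw [← h, e.apply_symm_apply])
  · rintro (⟨h1, h2⟩ | h)
    · exact Or.inl ⟨h1, fun h => h2 (by rw [← h, e.apply_symm_apply])⟩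
    · exact Or.inr (by rw [h, e.symm_apply_apply])

theorem map_map_symm (e : G ≃g G') (X : Finset V) :
    (X.map e.toEquiv.toEmbedding).map e.symm.toEquiv.toEmbedding = X := by
  ext x
  simp only [Finset.mem_map_equiv]
  change e.symm (e x) ∈ X ↔ x ∈ X
  rw [e.symm_apply_apply]

/-- Isomorphic graphs have isomorphic i-graphs. -/
noncomputable def iGraphCongr (e : G ≃g G') : iGraph G ≃g iGraph G' where
  toFun X := ⟨X.1.map e.toEquiv.toEmbedding, isISet_map e X.2⟩
  invFun X := ⟨X.1.map e.symm.toEquiv.toEmbedding, isISet_map e.symm X.2⟩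
  left_inv X := Subtype.ext (map_map_symm e X.1)
  right_inv X := Subtype.ext (map_map_symm e.symm X.1)
  map_rel_iff' := by
    intro X Y
    constructor
    · intro h
      have := slide_map e.symm h
      change Slide G ((X.1.map e.toEquiv.toEmbedding).map _) ((Y.1.map e.toEquiv.toEmbedding).map _)
        at this
      rw [map_map_symm, map_map_symm] at this
      exact this
    · exact fun h => slide_map e h

end Congr

/-! ### The seed of a 2-decomposable set -/

section Seed

variable {ι : Type} {A : ι → Type} (M : Set (∀ i, A i))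

/-- The labels of `M`: the pairs (coordinate, value) that occur in some member of `M`. -/
abbrev Label : Type := {p : (i : ι) × A i // ∃ m ∈ M, m p.1 = p.2}

/-- Two labels are adjacent when no member of `M` has both. -/
def seedGraph : SimpleGraph (Label M) where
  Adj p q := ¬ ∃ m ∈ M, m p.1.1 = p.1.2 ∧ m q.1.1 = q.1.2
  symm := ⟨fun p q h h' => h (by
    obtain ⟨m, hm, h1, h2⟩ := h'
    exact ⟨m, hm, h2, h1⟩)⟩
  loopless := ⟨fun p h => h (by
    obtain ⟨m, hm, h1⟩ := p.2
    exact ⟨m, hm, h1, h1⟩)⟩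

variable [Finite ι] [∀ i, Finite (A i)]

/-- The set of labels of a tuple. -/
noncomputable def labelSet (m : ∀ i, A i) : Finset (Label M) :=
  (Set.toFinite {p : Label M | m p.1.1 = p.1.2}).toFinset

variable {M}

theorem mem_labelSet {m : ∀ i, A i} {p : Label M} : p ∈ labelSet M m ↔ m p.1.1 = p.1.2 := by
  simp [labelSet]

/-- The label of the tuple `m ∈ M` at the coordinate `i`. -/
def lab {m : ∀ i, A i} (hm : m ∈ M) (i : ι) : Label M := ⟨⟨i, m i⟩, m, hm, rfl⟩

theorem lab_mem {m : ∀ i, A i} (hm : m ∈ M) (i : ι) : lab hm i ∈ labelSet M m :=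
  mem_labelSet.2 rfl

omit [Finite ι] [∀ i, Finite (A i)] in
theorem eq_lab {m : ∀ i, A i} (hm : m ∈ M) {p : Label M} (hp : m p.1.1 = p.1.2) :
    p = lab hm p.1.1 := by
  apply Subtype.ext
  obtain ⟨⟨i, a⟩, h⟩ := p
  change m i = a at hp
  subst hp
  rfl

theorem isIndepDom_labelSet {m : ∀ i, A i} (hm : m ∈ M) :
    IsIndepDom (seedGraph M) (labelSet M m) := by
  constructor
  · intro p hp q hq h
    rw [mem_labelSet] at hp hq
    exact h ⟨m, hm, hp, hq⟩
  · intro q hq
    rw [mem_labelSet] at hq
    refine ⟨lab hm q.1.1, lab_mem hm _, ?_⟩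
    rintro ⟨m', hm', h1, h2⟩
    apply hq
    rw [← h1]
    exact h2.symm

theorem card_labelSet [Fintype ι] {m : ∀ i, A i} (hm : m ∈ M) :
    (labelSet M m).card = Fintype.card ι := by
  classical
  have : labelSet M m = Finset.univ.image (lab hm) := by
    ext p
    rw [mem_labelSet, Finset.mem_image]
    constructor
    · intro h
      exact ⟨p.1.1, Finset.mem_univ _, (eq_lab hm h).symm⟩
    · rintro ⟨i, -, rfl⟩
      rfl
  rw [this, Finset.card_image_of_injective]
  · rfl
  · intro i j h
    exact congrArg (fun p : Label M => p.1.1) h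

theorem exists_eq_labelSet (hM : TwoDecomposable M) {S : Finset (Label M)}
    (hS : IsIndepDom (seedGraph M) S) : ∃ m ∈ M, S = labelSet M m := by
  classical
  obtain ⟨⟨m0, hm0⟩, hdec⟩ := hM
  have huniq : ∀ p ∈ S, ∀ q ∈ S, ∃ m ∈ M, m p.1.1 = p.1.2 ∧ m q.1.1 = q.1.2 := by
    intro p hp q hq
    have := hS.1 p hp q hq
    exact not_not.1 this
  let x : ∀ i, A i := fun i =>
    if h : ∃ p ∈ S, p.1.1 = i then (h.choose_spec.2 ▸ h.choose.1.2 : A i) else m0 i
  have hx : ∀ p ∈ S, x p.1.1 = p.1.2 := by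
    intro p hp
    have h : ∃ q ∈ S, q.1.1 = p.1.1 := ⟨p, hp, rfl⟩
    simp only [x, dif_pos h]
    obtain ⟨hq1, hq2⟩ := h.choose_spec
    generalize h.choose = q at hq1 hq2 ⊢
    obtain ⟨m, -, h1, h2⟩ := huniq p hp q hq1
    obtain ⟨⟨i, a⟩, hp'⟩ := p
    obtain ⟨⟨j, b⟩, hq'⟩ := q
    change j = i at hq2
    subst hq2
    change m j = a at h1
    change m j = b at h2
    change b = a
    rw [← h1, ← h2]
  obtain ⟨m, hm, hmx⟩ := hdec {i | ∃ p ∈ S, p.1.1 = i} x (by
    rintro i ⟨p, hp, rfl⟩ j ⟨q, hq, rfl⟩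
    obtain ⟨m, hm, h1, h2⟩ := huniq p hp q hq
    exact ⟨m, hm, by rw [h1, hx p hp], by rw [h2, hx q hq]⟩)
  have hsub : ∀ p ∈ S, m p.1.1 = p.1.2 := fun p hp => by
    rw [hmx p.1.1 ⟨p, hp, rfl⟩, hx p hp]
  refine ⟨m, hm, ?_⟩
  ext q
  rw [mem_labelSet]
  constructor
  · exact hsub q
  · intro hq
    by_contra hqS
    obtain ⟨u, hu, hadj⟩ := hS.2 q hqS
    exact hadj ⟨m, hm, hq, hsub u hu⟩

theorem card_of_isIndepDom_seedGraph [Fintype ι] (hM : TwoDecomposable M) (S : Finset (Label M))
    (hS : IsIndepDom (seedGraph M) S) : S.card = Fintype.card ι := by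
  obtain ⟨m, hm, rfl⟩ := exists_eq_labelSet hM hS
  exact card_labelSet hm

theorem wellCovered_seedGraph (hM : TwoDecomposable M) : WellCovered (seedGraph M) := by
  classical
  have := Fintype.ofFinite ι
  intro S T hS hT
  rw [card_of_isIndepDom_seedGraph hM S hS, card_of_isIndepDom_seedGraph hM T hT]

theorem slide_labelSet {m m' : ∀ i, A i} (hm : m ∈ M) (hm' : m' ∈ M) :
    Slide (seedGraph M) (labelSet M m) (labelSet M m') ↔ ∃! i, m i ≠ m' i := by
  constructor
  · rintro ⟨hne, u, hu, v, hv, huv, hw⟩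
    rw [mem_labelSet] at hu hv
    have hu' := eq_lab hm hu
    have hv' := eq_lab hm' hv
    have hij : u.1.1 = v.1.1 := by
      rcases (hw (lab hm' u.1.1)).1 (lab_mem hm' _) with ⟨h1, h2⟩ | h
      · exfalso
        apply h2
        rw [mem_labelSet] at h1
        exact (eq_lab hm h1).trans hu'.symm
      · have h' : (lab hm' u.1.1).1.1 = v.1.1 := congrArg (fun p : Label M => p.1.1) h
        exact h'
    refine ⟨u.1.1, ?_, ?_⟩
    · intro h
      apply huv
      refine ⟨m, hm, hu, ?_⟩
      obtain ⟨⟨i, a⟩, hu0⟩ := u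
      obtain ⟨⟨j, b⟩, hv0⟩ := v
      change i = j at hij
      subst hij
      exact h.trans hv
    · intro j hj
      by_contra hji
      apply hj
      rcases (hw (lab hm' j)).1 (lab_mem hm' j) with ⟨h1, h2⟩ | h
      · exact mem_labelSet.1 h1
      · exfalso
        apply hji
        rw [hij]
        exact congrArg (fun p : Label M => p.1.1) h
  · rintro ⟨i, hi, huniq⟩
    have hother : ∀ j, j ≠ i → m j = m' j := by
      intro j hj
      by_contra h
      exact hj (huniq j h)
    refine ⟨fun h => ?_, lab hm i, lab_mem hm i, lab hm' i, lab_mem hm' i, ?_, fun w => ?_⟩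
    · have := lab_mem hm i
      rw [h, mem_labelSet] at this
      exact hi this.symm
    · rintro ⟨m'', -, h1, h2⟩
      exact hi (h1.symm.trans h2)
    · rw [mem_labelSet, mem_labelSet]
      by_cases hwi : w.1.1 = i
      · obtain ⟨⟨j, c⟩, hc⟩ := w
        change j = i at hwi
        subst hwi
        change m' j = c ↔ (m j = c ∧ _) ∨ _
        constructor
        · rintro rfl
          exact Or.inr rfl
        · rintro (⟨h1, h2⟩ | h)
          · subst h1
            exact absurd rfl h2
          · have := congrArg Subtype.val h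
            simp only [lab, Sigma.mk.injEq, heq_eq_eq, true_and] at this
            exact this.symm
      · have h1 := hother _ hwi
        have h2 : w ≠ lab hm i := fun h => hwi (congrArg (fun p : Label M => p.1.1) h)
        have h3 : w ≠ lab hm' i := fun h => hwi (congrArg (fun p : Label M => p.1.1) h)
        rw [h1]
        tauto

/-- The i-graph of the seed graph of a 2-decomposable set `M` is the Hamming graph on `M`. -/
theorem iGraph_seedGraph (hM : TwoDecomposable M) :
    Nonempty (hammingGraph M ≃g iGraph (seedGraph M)) := by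
  let f : M → {S // IsISet (seedGraph M) S} := fun m =>
    ⟨labelSet M m.1, (wellCovered_seedGraph hM).isISet (isIndepDom_labelSet m.2)⟩
  have hf : Function.Bijective f := by
    constructor
    · intro m m' h
      have h1 : labelSet M m.1 = labelSet M m'.1 := congrArg Subtype.val h
      apply Subtype.ext
      funext i
      have h2 := lab_mem m.2 i
      rw [h1, mem_labelSet] at h2
      exact h2.symm
    · rintro ⟨S, hS⟩
      obtain ⟨m, hm, rfl⟩ := exists_eq_labelSet hM hS.1
      exact ⟨⟨m, hm⟩, rfl⟩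
  exact ⟨{ toEquiv := Equiv.ofBijective f hf
           map_rel_iff' := fun {m m'} => slide_labelSet m.2 m'.2 }⟩

theorem hasWellCoveredSeed_hammingGraph (hM : TwoDecomposable M) :
    HasWellCoveredSeed (hammingGraph M) :=
  ⟨Label M, inferInstance, seedGraph M, wellCovered_seedGraph hM, iGraph_seedGraph hM⟩

end Seed

/-! ### Majority-closed sets are 2-decomposable -/

section Majority

variable {ι : Type} {A : ι → Type}

theorem twoDecomposable_of_majority [Finite ι] {M : Set (∀ i, A i)} (hne : M.Nonempty)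
    (maj : ∀ i, A i → A i → A i → A i)
    (h1 : ∀ i x y, maj i x x y = x) (h2 : ∀ i x y, maj i x y x = x)
    (h3 : ∀ i x y, maj i y x x = x)
    (hM : ∀ x ∈ M, ∀ y ∈ M, ∀ z ∈ M, (fun i => maj i (x i) (y i) (z i)) ∈ M) :
    TwoDecomposable M := by
  classical
  refine ⟨hne, fun D x hx => ?_⟩
  have := Fintype.ofFinite ι
  have key : ∀ n : ℕ, ∀ D : Finset ι, D.card = n →
      (∀ i ∈ D, ∀ j ∈ D, ∃ m ∈ M, m i = x i ∧ m j = x j) → ∃ m ∈ M, ∀ i ∈ D, m i = x i := by
    intro n
    induction n using Nat.strong_induction_on with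
    | _ n ih =>
      intro D hD hp
      by_cases hn : n ≤ 2
      · by_cases h0 : D = ∅
        · obtain ⟨m, hm⟩ := hne
          exact ⟨m, hm, by simp [h0]⟩
        · obtain ⟨i, hi⟩ := Finset.nonempty_iff_ne_empty.2 h0
          have : ∃ j ∈ D, ∀ l ∈ D, l = i ∨ l = j := by
            by_cases h' : (D.erase i).Nonempty
            · obtain ⟨j, hj⟩ := h'
              refine ⟨j, Finset.mem_of_mem_erase hj, fun l hl => ?_⟩
              by_cases hli : l = i
              · exact Or.inl hli
              · refine Or.inr ?_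
                have h3 : (D.erase i).card ≤ 1 := by
                  rw [Finset.card_erase_of_mem hi]; omega
                exact Finset.card_le_one.1 h3 l (Finset.mem_erase.2 ⟨hli, hl⟩) j hj
            · refine ⟨i, hi, fun l hl => ?_⟩
              by_contra hl'
              exact h' ⟨l, Finset.mem_erase.2 ⟨fun h => hl' (Or.inl h), hl⟩⟩
          obtain ⟨j, hj, hall⟩ := this
          obtain ⟨m, hm, hmi, hmj⟩ := hp i hi j hj
          refine ⟨m, hm, fun l hl => ?_⟩
          rcases hall l hl with rfl | rfl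
          · exact hmi
          · exact hmj
      · push Not at hn
        have hc : 2 < D.card := by omega
        obtain ⟨a, b, c, ha, hb, hc', hab, hac, hbc⟩ := Finset.two_lt_card_iff.1 hc
        have step : ∀ a ∈ D, ∃ m ∈ M, ∀ i ∈ D.erase a, m i = x i := by
          intro a ha
          refine ih (n - 1) (by omega) (D.erase a) ?_ fun i hi j hj =>
            hp i (Finset.mem_of_mem_erase hi) j (Finset.mem_of_mem_erase hj)
          rw [Finset.card_erase_of_mem ha, hD]
        obtain ⟨p, hpM, hp'⟩ := step a ha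
        obtain ⟨q, hqM, hq'⟩ := step b hb
        obtain ⟨r, hrM, hr'⟩ := step c hc'
        refine ⟨_, hM p hpM q hqM r hrM, fun i hi => ?_⟩
        change maj i (p i) (q i) (r i) = x i
        by_cases hia : i = a
        · have hib : i ≠ b := fun h => hab (hia.symm.trans h)
          have hic : i ≠ c := fun h => hac (hia.symm.trans h)
          rw [hq' i (Finset.mem_erase.2 ⟨hib, hi⟩), hr' i (Finset.mem_erase.2 ⟨hic, hi⟩), h3]
        · rw [hp' i (Finset.mem_erase.2 ⟨hia, hi⟩)]
          by_cases hib : i = b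
          · have hic : i ≠ c := fun h => hbc (hib.symm.trans h)
            rw [hr' i (Finset.mem_erase.2 ⟨hic, hi⟩), h2]
          · rw [hq' i (Finset.mem_erase.2 ⟨hib, hi⟩), h1]
  obtain ⟨m, hm, hmx⟩ := key _ (Finset.univ.filter fun i => i ∈ D) rfl
    (fun i hi j hj => hx i (Finset.mem_filter.1 hi).2 j (Finset.mem_filter.1 hj).2)
  exact ⟨m, hm, fun i hi => hmx i (Finset.mem_filter.2 ⟨Finset.mem_univ i, hi⟩)⟩

end Majority

end Pool.Agent.Lib.MP_89d95d_co
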