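import Mathlib

set_option autoImplicit false

namespace Pool.Agent.Lib.MP_89d95d_co

/-- `S` is an independent dominating set of the graph `G`: no two vertices of `S` are adjacent,
and every vertex outside `S` has a neighbour in `S`. -/
def IsIndepDom {V : Type} (G : SimpleGraph V) (S : Finset V) : Prop :=
  (∀ u ∈ S, ∀ v ∈ S, ¬ G.Adj u v) ∧ ∀ v, v ∉ S → ∃ u ∈ S, G.Adj v u

/-- `S` is an i-set of `G`: an independent dominating set of minimum size. -/
def IsISet {V : Type} (G : SimpleGraph V) (S : Finset V) : Prop :=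
  IsIndepDom G S ∧ ∀ T, IsIndepDom G T → S.card ≤ T.card

/-- `G` is well-covered: all independent dominating (= maximal independent) sets of `G` have the
same size. -/
def WellCovered {V : Type} (G : SimpleGraph V) : Prop :=
  ∀ S T, IsIndepDom G S → IsIndepDom G T → S.card = T.card

/-- The slide relation: `X ≠ Y` and `Y = (X \ {u}) ∪ {v}` for some `u ∈ X` and `v ∈ Y` with
`u v` an edge of `G`. -/
def Slide {V : Type} (G : SimpleGraph V) (X Y : Finset V) : Prop :=
  X ≠ Y ∧ ∃ u ∈ X, ∃ v ∈ Y, G.Adj u v ∧ ∀ w, w ∈ Y ↔ (w ∈ X ∧ w ≠ u) ∨ w = v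

theorem Slide.symm_of_indep {V : Type} {G : SimpleGraph V} {X Y : Finset V}
    (hX : ∀ u ∈ X, ∀ v ∈ X, ¬ G.Adj u v) (h : Slide G X Y) : Slide G Y X := by
  obtain ⟨hne, u, hu, v, hv, huv, hw⟩ := h
  refine ⟨hne.symm, v, hv, u, hu, huv.symm, fun w => ?_⟩
  have hvX : v ∉ X := fun hvX => hX u hu v hvX huv
  have huv' : u ≠ v := huv.ne
  constructor
  · intro hwX
    by_cases hwu : w = u
    · exact Or.inr hwu
    · exact Or.inl ⟨(hw w).2 (Or.inl ⟨hwX, hwu⟩), fun h => hvX (h ▸ hwX)⟩
  · rintro (⟨hwY, hwv⟩ | rfl)
    · rcases (hw w).1 hwY with h | h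
      · exact h.1
      · exact absurd h hwv
    · exact hu

/-- The i-graph of `G`: its vertices are the i-sets of `G`, and two of them are adjacent when one
arises from the other by sliding one vertex along an edge of `G`. -/
def iGraph {V : Type} (G : SimpleGraph V) : SimpleGraph {S : Finset V // IsISet G S} where
  Adj X Y := Slide G X.1 Y.1
  symm := ⟨fun X Y h => h.symm_of_indep X.2.1.1⟩
  loopless := ⟨fun _ h => h.1 rfl⟩

/-- `H` is an i-graph: it is isomorphic to the i-graph of some finite graph. -/
def IsIGraph {W : Type} (H : SimpleGraph W) : Prop :=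
  ∃ (V : Type) (_ : Finite V) (G : SimpleGraph V), Nonempty (H ≃g iGraph G)

/-- `H` has a well-covered seed: it is isomorphic to the i-graph of some finite well-covered
graph. -/
def HasWellCoveredSeed {W : Type} (H : SimpleGraph W) : Prop :=
  ∃ (V : Type) (_ : Finite V) (G : SimpleGraph V), WellCovered G ∧ Nonempty (H ≃g iGraph G)

/-- The cube completion property of a graph `H`: whenever `w 0, …, w (k-1)` are distinct pairwise
non-adjacent neighbours of a vertex `v` and for `i ≠ j` the vertex `u i j` is a common neighbour of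
`w i` and `w j` that is neither `v` nor adjacent to `v`, there is an induced `k`-cube in `H` (the
image of `c`) with corner `v`, edges `v (w i)` and squares `v, w i, u i j, w j`. -/
def CubeCompletion {W : Type} (H : SimpleGraph W) : Prop :=
  ∀ (k : ℕ) (v : W) (w : Fin k → W) (u : Fin k → Fin k → W),
    (∀ i, H.Adj v (w i)) →
    (∀ i j, i ≠ j → w i ≠ w j ∧ ¬ H.Adj (w i) (w j)) →
    (∀ i j, i ≠ j → v ≠ u i j ∧ ¬ H.Adj v (u i j) ∧ H.Adj (w i) (u i j) ∧ H.Adj (w j) (u i j)) →
    ∃ c : Finset (Fin k) → W, Function.Injective c ∧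
      (∀ A B, H.Adj (c A) (c B) ↔ (symmDiff A B).card = 1) ∧
      c ∅ = v ∧ (∀ i, c {i} = w i) ∧ ∀ i j, i ≠ j → c {i, j} = u i j

section Defs

variable {ι : Type} {A : ι → Type}

/-- A nonempty set `M` of tuples is 2-decomposable: every partial tuple (the restriction of `x` to
`D`) all of whose pairs of entries occur together in some member of `M` extends to a member
of `M`. -/
def TwoDecomposable (M : Set (∀ i, A i)) : Prop :=
  M.Nonempty ∧ ∀ (D : Set ι) (x : ∀ i, A i),
    (∀ i ∈ D, ∀ j ∈ D, ∃ m ∈ M, m i = x i ∧ m j = x j) → ∃ m ∈ M, ∀ i ∈ D, m i = x i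

/-- The subgraph of the Hamming graph induced by `M`: two tuples are adjacent when they differ in
exactly one coordinate. -/
def hammingGraph (M : Set (∀ i, A i)) : SimpleGraph M where
  Adj x y := ∃! i, x.1 i ≠ y.1 i
  symm := ⟨fun x y h => by simpa only [ne_comm] using h⟩
  loopless := ⟨fun x h => by
    obtain ⟨i, hi, -⟩ := h
    exact hi rfl⟩

end Defs

/-- `H` is the i-graph of a finite graph `G` all of whose maximal independent sets have the
size `k` and whose vertex set can be partitioned into `k` cliques (the fibres of `p`). -/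
def HasCliquePartitionedSeed (k : ℕ) {W : Type} (H : SimpleGraph W) : Prop :=
  ∃ (V : Type) (_ : Finite V) (G : SimpleGraph V) (p : V → Fin k),
    (∀ u v, u ≠ v → p u = p v → G.Adj u v) ∧ (∀ S, IsIndepDom G S → S.card = k) ∧
      Nonempty (H ≃g iGraph G)

/-- The graph of a family `D` of subsets of `{0, …, n-1}`: its vertices are the members of `D`,
and two members are adjacent when they differ in exactly one element. -/
def cubeGraph {n : ℕ} (D : Set (Finset (Fin n))) : SimpleGraph D where
  Adj A B := (symmDiff A.1 B.1).card = 1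
  symm := ⟨fun A B h => by rw [symmDiff_comm]; exact h⟩
  loopless := ⟨fun A h => by simp at h⟩

/-- `D` is a (finite abstract) simplicial complex: it contains the empty set and all subsets of its
members. -/
def IsComplex {n : ℕ} (D : Set (Finset (Fin n))) : Prop :=
  ∅ ∈ D ∧ ∀ A ∈ D, ∀ B, B ⊆ A → B ∈ D

/-- `D` is flag: every set all of whose subsets with at most two elements are in `D` is in `D`. -/
def IsFlag {n : ℕ} (D : Set (Finset (Fin n))) : Prop :=
  ∀ A : Finset (Fin n), (∀ i ∈ A, ∀ j ∈ A, {i, j} ∈ D) → A ∈ D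

/-- `m` is a median of `u`, `v`, `w`: it lies on a shortest path between any two of them. -/
def IsMedianOf {W : Type} (H : SimpleGraph W) (u v w m : W) : Prop :=
  H.dist u m + H.dist m v = H.dist u v ∧ H.dist v m + H.dist m w = H.dist v w ∧
    H.dist w m + H.dist m u = H.dist w u

/-- Median graphs: connected graphs in which any three vertices have a unique median. -/
def IsMedianGraph {W : Type} (H : SimpleGraph W) : Prop :=
  H.Connected ∧ ∀ u v w, ∃! m, IsMedianOf H u v w m

end Pool.Agent.Lib.MP_89d95d_co
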