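import Pool.Agent.Lib.MP_89d95d_co.Decomposable

set_option autoImplicit false

namespace Pool.Agent.Lib.MP_89d95d_co

/-! ### Every graph of a nonempty family is an i-graph -/

section Seed

variable {n : ℕ}

/-- The seed: `n` disjoint edges `(i,true)(i,false)` and a clique of new vertices, one for every set
`F` outside `D`, where the vertex of `F` is joined to all `(i,b)` outside the transversal of `F`. -/
def familySeed (D : Set (Finset (Fin n))) :
    SimpleGraph ((Fin n × Bool) ⊕ {F : Finset (Fin n) // F ∉ D}) where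
  Adj x y := match x, y with
    | .inl (i, b), .inl (j, c) => i = j ∧ b ≠ c
    | .inl (i, b), .inr F => b ≠ decide (i ∈ F.1)
    | .inr F, .inl (i, b) => b ≠ decide (i ∈ F.1)
    | .inr F, .inr F' => F ≠ F'
  symm := ⟨fun x y h => by
    rcases x with ⟨i, b⟩ | F <;> rcases y with ⟨j, c⟩ | F' <;> simp_all [eq_comm]⟩
  loopless := ⟨fun x h => by rcases x with ⟨i, b⟩ | F <;> simp_all⟩

variable {D : Set (Finset (Fin n))}

theorem familySeed_ll (i j : Fin n) (b c : Bool) :
    (familySeed D).Adj (.inl (i, b)) (.inl (j, c)) ↔ i = j ∧ b ≠ c := Iff.rfl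

theorem familySeed_lr (i : Fin n) (b : Bool) (F : {F : Finset (Fin n) // F ∉ D}) :
    (familySeed D).Adj (.inl (i, b)) (.inr F) ↔ b ≠ decide (i ∈ F.1) := Iff.rfl

theorem familySeed_rl (i : Fin n) (b : Bool) (F : {F : Finset (Fin n) // F ∉ D}) :
    (familySeed D).Adj (.inr F) (.inl (i, b)) ↔ b ≠ decide (i ∈ F.1) := Iff.rfl

theorem familySeed_rr (F F' : {F : Finset (Fin n) // F ∉ D}) :
    (familySeed D).Adj (.inr F) (.inr F') ↔ F ≠ F' := Iff.rfl

/-- The transversal of the set `A`. -/
def trans (D : Set (Finset (Fin n))) (A : Finset (Fin n)) :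
    Finset ((Fin n × Bool) ⊕ {F : Finset (Fin n) // F ∉ D}) :=
  Finset.univ.map ⟨fun i : Fin n => .inl (i, decide (i ∈ A)), fun i j h => by
    simp only [Sum.inl.injEq, Prod.mk.injEq] at h
    exact h.1⟩

theorem inl_mem_trans {A : Finset (Fin n)} {i : Fin n} {b : Bool} :
    .inl (i, b) ∈ trans D A ↔ b = decide (i ∈ A) := by
  simp only [trans, Finset.mem_map, Finset.mem_univ, true_and]
  constructor
  · rintro ⟨j, h⟩
    change (Sum.inl (j, decide (j ∈ A)) : (Fin n × Bool) ⊕ {F : Finset (Fin n) // F ∉ D}) =
      .inl (i, b) at h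
    simp only [Sum.inl.injEq, Prod.mk.injEq] at h
    rw [← h.2, h.1]
  · rintro rfl
    exact ⟨i, rfl⟩

theorem inr_notMem_trans {A : Finset (Fin n)} {F : {F : Finset (Fin n) // F ∉ D}} :
    .inr F ∉ trans D A := by
  simp [trans]

theorem card_trans (A : Finset (Fin n)) : (trans D A).card = n := by
  simp [trans]

theorem isIndepDom_trans {A : Finset (Fin n)} (hA : A ∈ D) :
    IsIndepDom (familySeed D) (trans D A) := by
  constructor
  · intro x hx y hy
    rcases x with ⟨i, b⟩ | F
    · rcases y with ⟨j, c⟩ | F'
      · rw [inl_mem_trans] at hx hy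
        rw [familySeed_ll]
        rintro ⟨rfl, h⟩
        exact h (hx.trans hy.symm)
      · exact absurd hy inr_notMem_trans
    · exact absurd hx inr_notMem_trans
  · intro x hx
    rcases x with ⟨i, b⟩ | F
    · rw [inl_mem_trans] at hx
      exact ⟨.inl (i, decide (i ∈ A)), inl_mem_trans.2 rfl, rfl, hx⟩
    · have hne : A ≠ F.1 := fun h => F.2 (h ▸ hA)
      have : ∃ i, ¬ (i ∈ A ↔ i ∈ F.1) := by
        by_contra h
        push Not at h
        exact hne (Finset.ext h)
      obtain ⟨i, hi⟩ := this
      refine ⟨.inl (i, decide (i ∈ A)), inl_mem_trans.2 rfl, ?_⟩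
      rw [familySeed_rl]
      intro h
      exact hi (decide_eq_decide.1 h)

theorem indepDom_cases {T : Finset ((Fin n × Bool) ⊕ {F : Finset (Fin n) // F ∉ D})}
    (hT : IsIndepDom (familySeed D) T) :
    (∃ A ∈ D, T = trans D A) ∨ n < T.card := by
  classical
  by_cases hz : ∃ F, .inr F ∈ T
  · right
    obtain ⟨F, hF⟩ := hz
    have hall : trans D F.1 ⊆ T := by
      intro x hx
      rcases x with ⟨i, b⟩ | F'
      · rw [inl_mem_trans] at hx
        by_contra hxT
        obtain ⟨u, hu, hadj⟩ := hT.2 _ hxT
        rcases u with ⟨j, c⟩ | F'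
        · rw [familySeed_ll] at hadj
          obtain ⟨rfl, hbc⟩ := hadj
          apply hT.1 _ hu _ hF
          rw [familySeed_lr, ← hx]
          exact hbc.symm
        · rw [familySeed_lr] at hadj
          by_cases hFF : F' = F
          · rw [hFF] at hadj
            exact hadj hx
          · exact hT.1 _ hu _ hF hFF
      · exact absurd hx inr_notMem_trans
    have h1 : insert (.inr F) (trans D F.1) ⊆ T := by
      intro x hx
      rcases Finset.mem_insert.1 hx with rfl | hx
      · exact hF
      · exact hall hx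
    have h2 := Finset.card_le_card h1
    rw [Finset.card_insert_of_notMem inr_notMem_trans, card_trans] at h2
    omega
  · left
    push Not at hz
    have leg : ∀ i, .inl (i, true) ∈ T ∨ .inl (i, false) ∈ T := by
      intro i
      by_contra h
      push Not at h
      obtain ⟨u, hu, hadj⟩ := hT.2 _ h.2
      rcases u with ⟨j, c⟩ | F'
      · rw [familySeed_ll] at hadj
        obtain ⟨rfl, hc⟩ := hadj
        have : c = true := by
          cases c
          · exact absurd rfl hc
          · rfl
        exact h.1 (this ▸ hu)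
      · exact hz _ hu
    let A : Finset (Fin n) := Finset.univ.filter fun i => .inl (i, true) ∈ T
    have hTA : T = trans D A := by
      ext x
      rcases x with ⟨i, b⟩ | F
      · rw [inl_mem_trans]
        simp only [A, Finset.mem_filter, Finset.mem_univ, true_and]
        constructor
        · intro h
          cases b
          · have : .inl (i, true) ∉ T := fun h' => hT.1 _ h _ h' ⟨rfl, by simp⟩
            simp [this]
          · simp [h]
        · intro h
          by_cases h' : .inl (i, true) ∈ T
          · rw [h]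
            simp only [h', decide_true]
          · rw [h]
            simp only [h', decide_false]
            exact (leg i).resolve_left h'
      · simp [hz F, inr_notMem_trans]
    refine ⟨A, ?_, hTA⟩
    by_contra hA
    obtain ⟨u, hu, hadj⟩ := hT.2 (.inr ⟨A, hA⟩) (hz _)
    rcases u with ⟨j, c⟩ | F'
    · rw [familySeed_rl] at hadj
      rw [hTA, inl_mem_trans] at hu
      exact hadj hu
    · exact hz _ hu

theorem isISet_trans {A : Finset (Fin n)} (hA : A ∈ D) :
    IsISet (familySeed D) (trans D A) := by
  refine ⟨isIndepDom_trans hA, fun T hT => ?_⟩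
  rw [card_trans]
  rcases indepDom_cases hT with ⟨B, -, rfl⟩ | h
  · rw [card_trans]
  · exact h.le

theorem trans_injective : Function.Injective (trans D) := by
  intro A B h
  ext i
  have h1 : .inl (i, decide (i ∈ A)) ∈ trans D B := h ▸ inl_mem_trans.2 rfl
  rw [inl_mem_trans] at h1
  exact decide_eq_decide.1 h1

theorem slide_trans (A B : Finset (Fin n)) :
    Slide (familySeed D) (trans D A) (trans D B) ↔ (symmDiff A B).card = 1 := by
  constructor
  · rintro ⟨hne, u, hu, v, hv, huv, hw⟩
    rcases u with ⟨i, b⟩ | F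
    · rcases v with ⟨j, c⟩ | F'
      · rw [familySeed_ll] at huv
        obtain ⟨rfl, hbc⟩ := huv
        rw [inl_mem_trans] at hu hv
        rw [Finset.card_eq_one]
        refine ⟨i, ?_⟩
        ext j
        rw [Finset.mem_symmDiff, Finset.mem_singleton]
        constructor
        · intro h
          by_contra hji
          have h1 := (hw (.inl (j, decide (j ∈ A)))).2
            (Or.inl ⟨inl_mem_trans.2 rfl, by simp [hji]⟩)
          rw [inl_mem_trans] at h1
          have := decide_eq_decide.1 h1
          tauto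
        · rintro rfl
          rw [hu, hv] at hbc
          have : ¬ ((j ∈ A) ↔ (j ∈ B)) := fun h => hbc (decide_eq_decide.2 h)
          tauto
      · exact absurd hv inr_notMem_trans
    · exact absurd hu inr_notMem_trans
  · intro h
    obtain ⟨i, hi⟩ := Finset.card_eq_one.1 h
    have hother : ∀ j, j ≠ i → (j ∈ A ↔ j ∈ B) := by
      intro j hj
      have : j ∉ symmDiff A B := by rw [hi]; simpa using hj
      rw [Finset.mem_symmDiff] at this
      tauto
    have hmemi : i ∈ symmDiff A B := by rw [hi]; simp
    rw [Finset.mem_symmDiff] at hmemi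
    refine ⟨fun h' => ?_, .inl (i, decide (i ∈ A)), inl_mem_trans.2 rfl,
      .inl (i, decide (i ∈ B)), inl_mem_trans.2 rfl, ⟨rfl, ?_⟩, fun x => ?_⟩
    · have := trans_injective h'
      rw [this] at hmemi
      tauto
    · intro h'
      have := decide_eq_decide.1 h'
      tauto
    · rcases x with ⟨j, c⟩ | F
      · rw [inl_mem_trans, inl_mem_trans]
        by_cases hj : j = i
        · subst hj
          simp only [ne_eq, Sum.inl.injEq, Prod.mk.injEq, true_and]
          tauto
        · have h1 : decide (j ∈ B) = decide (j ∈ A) := decide_eq_decide.2 (by rw [hother j hj])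
          simp [hj, h1]
      · simp [inr_notMem_trans]

/-- The graph of every nonempty family of subsets of `{0, …, n-1}` is an i-graph. -/
theorem isIGraph_cubeGraph (hD : D.Nonempty) : IsIGraph (cubeGraph D) := by
  refine ⟨(Fin n × Bool) ⊕ {F : Finset (Fin n) // F ∉ D}, inferInstance, familySeed D, ⟨?_⟩⟩
  let f : D → {S // IsISet (familySeed D) S} := fun A => ⟨trans D A.1, isISet_trans A.2⟩
  have hf : Function.Bijective f := by
    constructor
    · intro A B h
      exact Subtype.ext (trans_injective (congrArg Subtype.val h))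
    · rintro ⟨T, hT⟩
      obtain ⟨A0, hA0⟩ := hD
      have h1 := hT.2 _ (isIndepDom_trans hA0)
      rw [card_trans] at h1
      rcases indepDom_cases hT.1 with ⟨A, hA, rfl⟩ | h
      · exact ⟨⟨A, hA⟩, rfl⟩
      · omega
  exact { toEquiv := Equiv.ofBijective f hf, map_rel_iff' := fun {A B} => slide_trans A.1 B.1 }

end Seed

/-! ### Necessity of flagness -/

theorem corner {α : Type} [DecidableEq α] (X T : Finset α) (a b c : α) (ha : a ∈ X) (hb : b ∈ X)
    (hc : c ∈ X) (hab : a ≠ b) (hac : a ≠ c) (hbc : b ≠ c)
    (h1 : (symmDiff T (X.erase a)).card = 1) (h2 : (symmDiff T (X.erase b)).card = 1)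
    (h3 : (symmDiff T (X.erase c)).card = 1) : T = X := by
  obtain ⟨x, hx⟩ := Finset.card_eq_one.1 h1
  obtain ⟨y, hy⟩ := Finset.card_eq_one.1 h2
  obtain ⟨z, hz⟩ := Finset.card_eq_one.1 h3
  have fx : ∀ p, ((p ∈ T ∧ ¬ (p ≠ a ∧ p ∈ X)) ∨ ((p ≠ a ∧ p ∈ X) ∧ p ∉ T)) ↔ p = x := by
    intro p
    rw [show (p = x) ↔ p ∈ ({x} : Finset α) from Finset.mem_singleton.symm, ← hx]
    simp only [Finset.mem_symmDiff, Finset.mem_erase]
  have fy : ∀ p, ((p ∈ T ∧ ¬ (p ≠ b ∧ p ∈ X)) ∨ ((p ≠ b ∧ p ∈ X) ∧ p ∉ T)) ↔ p = y := by
    intro p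
    rw [show (p = y) ↔ p ∈ ({y} : Finset α) from Finset.mem_singleton.symm, ← hy]
    simp only [Finset.mem_symmDiff, Finset.mem_erase]
  have fz : ∀ p, ((p ∈ T ∧ ¬ (p ≠ c ∧ p ∈ X)) ∨ ((p ≠ c ∧ p ∈ X) ∧ p ∉ T)) ↔ p = z := by
    intro p
    rw [show (p = z) ↔ p ∈ ({z} : Finset α) from Finset.mem_singleton.symm, ← hz]
    simp only [Finset.mem_symmDiff, Finset.mem_erase]
  have key : a = x := by
    by_contra hne
    have ta : a ∉ T := fun h => hne ((fx a).1 (Or.inl ⟨h, fun h' => h'.1 rfl⟩))
    have ya : a = y := (fy a).1 (Or.inr ⟨⟨hab, ha⟩, ta⟩)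
    have za : a = z := (fz a).1 (Or.inr ⟨⟨hac, ha⟩, ta⟩)
    have tb : b ∉ T := fun h =>
      hab (ya.trans ((fy b).1 (Or.inl ⟨h, fun h' => h'.1 rfl⟩)).symm)
    exact hab (za.trans ((fz b).1 (Or.inr ⟨⟨hbc, hb⟩, tb⟩)).symm)
  ext p
  by_cases hpa : p = a
  · rw [hpa]
    constructor
    · exact fun _ => ha
    · intro _
      rcases (fx a).2 key with h | h
      · exact h.1
      · exact absurd rfl h.1.1
  · have h : ¬ ((p ∈ T ∧ ¬ (p ≠ a ∧ p ∈ X)) ∨ ((p ≠ a ∧ p ∈ X) ∧ p ∉ T)) := by
      rw [fx]
      exact fun h => hpa (h.trans key.symm)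
    tauto

theorem isFlag_of_seed {n : ℕ} {D : Set (Finset (Fin n))} (hD : IsComplex D)
    (h : HasWellCoveredSeed (cubeGraph D)) : IsFlag D := by
  classical
  intro A hA
  have hcc := cubeCompletion_of_seed h
  let e := A.equivFin.symm
  let g : Fin A.card → Fin n := fun t => (e t).1
  have hg : Function.Injective g := fun s t h => e.injective (Subtype.ext h)
  have hgA : ∀ t, g t ∈ A := fun t => (e t).2
  have h1 : ∀ t, ({g t} : Finset (Fin n)) ∈ D := fun t => by
    have := hA _ (hgA t) _ (hgA t)
    rwa [Finset.pair_eq_singleton] at this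
  have h2 : ∀ s t, ({g s, g t} : Finset (Fin n)) ∈ D := fun s t => hA _ (hgA s) _ (hgA t)
  obtain ⟨c, -, hadj, c0, c1, c2⟩ := hcc A.card ⟨∅, hD.1⟩ (fun t => ⟨{g t}, h1 t⟩)
    (fun s t => ⟨{g s, g t}, h2 s t⟩)
    (fun t => by
      change (symmDiff (∅ : Finset (Fin n)) {g t}).card = 1
      rw [show (∅ : Finset (Fin n)) = ⊥ from rfl, bot_symmDiff]
      simp)
    (fun s t hst => by
      have hne : g s ≠ g t := fun h => hst (hg h)
      have hd : symmDiff ({g s} : Finset (Fin n)) {g t} = {g s, g t} := by
        ext x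
        simp only [Finset.mem_symmDiff, Finset.mem_singleton, Finset.mem_insert]
        constructor
        · tauto
        · rintro (rfl | rfl)
          · exact Or.inl ⟨rfl, hne⟩
          · exact Or.inr ⟨rfl, hne.symm⟩
      constructor
      · intro h
        have := congrArg Subtype.val h
        exact hne (Finset.singleton_injective this)
      · change ¬ (symmDiff ({g s} : Finset (Fin n)) {g t}).card = 1
        rw [hd, Finset.card_pair hne]
        omega)
    (fun s t hst => by
      have hne : g s ≠ g t := fun h => hst (hg h)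
      refine ⟨fun h => ?_, ?_, ?_, ?_⟩
      · have h' : (∅ : Finset (Fin n)) = {g s, g t} := congrArg Subtype.val h
        have : g s ∈ (∅ : Finset (Fin n)) := by rw [h']; simp
        simp at this
      · change ¬ (symmDiff (∅ : Finset (Fin n)) {g s, g t}).card = 1
        rw [show (∅ : Finset (Fin n)) = ⊥ from rfl, bot_symmDiff, Finset.card_pair hne]
        omega
      · change (symmDiff ({g s} : Finset (Fin n)) {g s, g t}).card = 1
        have : symmDiff ({g s} : Finset (Fin n)) {g s, g t} = {g t} := by
          ext x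
          simp only [Finset.mem_symmDiff, Finset.mem_singleton, Finset.mem_insert]
          constructor
          · tauto
          · rintro rfl
            exact Or.inr ⟨Or.inr rfl, hne.symm⟩
        rw [this]; simp
      · change (symmDiff ({g t} : Finset (Fin n)) {g s, g t}).card = 1
        have : symmDiff ({g t} : Finset (Fin n)) {g s, g t} = {g s} := by
          ext x
          simp only [Finset.mem_symmDiff, Finset.mem_singleton, Finset.mem_insert]
          constructor
          · tauto
          · rintro rfl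
            exact Or.inr ⟨Or.inl rfl, hne⟩
        rw [this]; simp)
  have key : ∀ m : ℕ, ∀ B : Finset (Fin A.card), B.card = m → (c B).1 = B.image g := by
    intro m
    induction m using Nat.strong_induction_on with
    | _ m ih =>
      intro B hB
      by_cases hm : m ≤ 2
      · interval_cases m
        · rw [Finset.card_eq_zero.1 hB, c0]
          simp
        · obtain ⟨t, rfl⟩ := Finset.card_eq_one.1 hB
          rw [c1]
          simp
        · obtain ⟨s, t, hst, rfl⟩ := Finset.card_eq_two.1 hB
          rw [c2 s t hst]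
          simp [Finset.image_insert]
      · push Not at hm
        have hc : 2 < B.card := by omega
        obtain ⟨a, b, d, ha, hb, hd, hab, had, hbd⟩ := Finset.two_lt_card_iff.1 hc
        have step : ∀ a ∈ B, (symmDiff (c B).1 ((B.image g).erase (g a))).card = 1 := by
          intro a ha
          have h3 : (c (B.erase a)).1 = (B.image g).erase (g a) := by
            rw [ih (m - 1) (by omega) (B.erase a) (by rw [Finset.card_erase_of_mem ha, hB])]
            exact Finset.image_erase hg B a
          rw [← h3]
          have h4 : symmDiff B (B.erase a) = {a} := by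
            ext x
            simp only [Finset.mem_symmDiff, Finset.mem_erase, Finset.mem_singleton]
            constructor
            · tauto
            · rintro rfl
              exact Or.inl ⟨ha, fun h => h.1 rfl⟩
          exact (hadj B (B.erase a)).2 (by rw [h4]; simp)
        exact corner (B.image g) (c B).1 (g a) (g b) (g d) (Finset.mem_image_of_mem g ha)
          (Finset.mem_image_of_mem g hb) (Finset.mem_image_of_mem g hd)
          (fun h => hab (hg h)) (fun h => had (hg h)) (fun h => hbd (hg h))
          (step a ha) (step b hb) (step d hd)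
  have hfin := key _ Finset.univ rfl
  have himg : Finset.univ.image g = A := by
    ext x
    simp only [Finset.mem_image, Finset.mem_univ, true_and]
    constructor
    · rintro ⟨t, rfl⟩
      exact hgA t
    · intro hx
      exact ⟨e.symm ⟨x, hx⟩, by simp [g]⟩
  rw [himg] at hfin
  rw [← hfin]
  exact (c Finset.univ).2

/-! ### Sufficiency of flagness -/

theorem seed_of_isFlag {n : ℕ} {D : Set (Finset (Fin n))} (hD : IsComplex D) (hF : IsFlag D) :
    HasWellCoveredSeed (cubeGraph D) := by
  classical
  let ind : Finset (Fin n) → (∀ _ : Fin n, Prop) := fun A i => i ∈ A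
  let M : Set (∀ _ : Fin n, Prop) := ind '' D
  have hinj : Function.Injective ind := by
    intro A B h
    ext i
    exact (congrFun h i).to_iff
  have hM : TwoDecomposable M := by
    refine twoDecomposable_of_majority (A := fun _ : Fin n => Prop) (M := M)
      ⟨ind ∅, ∅, hD.1, rfl⟩ (fun _ a b c => (a ∧ b) ∨ (b ∧ c) ∨ (a ∧ c)) ?_ ?_ ?_ ?_
    · intro i x y
      apply propext
      tauto
    · intro i x y
      apply propext
      tauto
    · intro i x y
      apply propext
      tauto
    · rintro _ ⟨A, hA, rfl⟩ _ ⟨B, hB, rfl⟩ _ ⟨C, hC, rfl⟩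
      refine ⟨(A ∩ B) ∪ (B ∩ C) ∪ (A ∩ C), ?_, ?_⟩
      · apply hF
        intro i hi j hj
        simp only [Finset.mem_union, Finset.mem_inter] at hi hj
        have hcase : (i ∈ A ∧ j ∈ A) ∨ (i ∈ B ∧ j ∈ B) ∨ (i ∈ C ∧ j ∈ C) := by tauto
        have hsub : ∀ E ∈ D, i ∈ E ∧ j ∈ E → ({i, j} : Finset (Fin n)) ∈ D := by
          intro E hE h
          refine hD.2 E hE _ ?_
          intro x hx
          rw [Finset.mem_insert, Finset.mem_singleton] at hx
          rcases hx with rfl | rfl
          · exact h.1
          · exact h.2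
        rcases hcase with h | h | h
        · exact hsub A hA h
        · exact hsub B hB h
        · exact hsub C hC h
      · funext i
        apply propext
        simp only [ind, Finset.mem_union, Finset.mem_inter]
        tauto
  obtain ⟨V, hV, G, hwc, ⟨e⟩⟩ := hasWellCoveredSeed_hammingGraph hM
  refine ⟨V, hV, G, hwc, ⟨RelIso.trans ?_ e⟩⟩
  let f : D → M := fun A => ⟨ind A.1, A.1, A.2, rfl⟩
  have hf : Function.Bijective f := by
    constructor
    · intro A B h
      exact Subtype.ext (hinj (congrArg Subtype.val h))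
    · rintro ⟨_, A, hA, rfl⟩
      exact ⟨⟨A, hA⟩, rfl⟩
  refine { toEquiv := Equiv.ofBijective f hf, map_rel_iff' := fun {A B} => ?_ }
  change (∃! i, (i ∈ A.1) ≠ (i ∈ B.1)) ↔ (symmDiff A.1 B.1).card = 1
  have hmem : ∀ i, i ∈ symmDiff A.1 B.1 ↔ (i ∈ A.1) ≠ (i ∈ B.1) := by
    intro i
    rw [Finset.mem_symmDiff, ne_eq, eq_iff_iff]
    tauto
  rw [Finset.card_eq_one]
  constructor
  · rintro ⟨i, hi, hu⟩
    refine ⟨i, ?_⟩
    ext j
    rw [hmem, Finset.mem_singleton]
    constructor
    · exact hu j
    · rintro rfl
      exact hi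
  · rintro ⟨i, hi⟩
    refine ⟨i, (hmem i).1 (by rw [hi]; simp), fun j hj => ?_⟩
    have := (hmem j).2 hj
    rw [hi] at this
    simpa using this

/-- The graph of a simplicial complex is always an i-graph, and it has a well-covered seed exactly
when the complex is flag. -/
theorem cubeGraph_complex {n : ℕ} (D : Set (Finset (Fin n))) (hD : IsComplex D) :
    IsIGraph (cubeGraph D) ∧ (HasWellCoveredSeed (cubeGraph D) ↔ IsFlag D) :=
  ⟨isIGraph_cubeGraph ⟨∅, hD.1⟩, isFlag_of_seed hD, seed_of_isFlag hD⟩

/-- Not every i-graph has a well-covered seed. -/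
theorem exists_iGraph_without_seed :
    ∃ (W : Type) (H : SimpleGraph W), IsIGraph H ∧ ¬ HasWellCoveredSeed H := by
  let D : Set (Finset (Fin 3)) := {A | A ≠ Finset.univ}
  have hD : IsComplex D := by
    constructor
    · intro h
      exact absurd h (by decide)
    · intro A hA B hBA hB
      apply hA
      rw [Finset.eq_univ_iff_forall]
      intro x
      exact hBA (hB ▸ Finset.mem_univ x)
  refine ⟨D, cubeGraph D, (cubeGraph_complex D hD).1, fun h => ?_⟩
  have hF := ((cubeGraph_complex D hD).2).1 h
  have : (Finset.univ : Finset (Fin 3)) ∈ D := by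
    apply hF
    intro i _ j _ h
    have h1 : (({i, j} : Finset (Fin 3))).card = 3 := by rw [h]; rfl
    have h2 := Finset.card_le_two (a := i) (b := j)
    omega
  exact this rfl

end Pool.Agent.Lib.MP_89d95d_co
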