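import Pool.Agent.Lib.MP_89d95d_co.Decomposable

set_option autoImplicit false

namespace Pool.Agent.Lib.MP_89d95d_co

section

variable {W : Type} {H : SimpleGraph W}

/-- Convex sets of vertices. -/
def Conv (H : SimpleGraph W) (S : Set W) : Prop :=
  ∀ u ∈ S, ∀ v ∈ S, ∀ z, H.dist u z + H.dist z v = H.dist u v → z ∈ S

theorem dist_adj {x y : W} (h : H.Adj x y) : H.dist x y = 1 := SimpleGraph.dist_eq_one_iff_adj.2 h

theorem bip (hH : IsMedianGraph H) {x y : W} (hxy : H.Adj x y) (z : W) :
    H.dist z x + 1 = H.dist z y ∨ H.dist z y + 1 = H.dist z x := by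
  obtain ⟨m, ⟨h1, h2, h3⟩, -⟩ := hH.2 x y z
  have hd := dist_adj hxy
  rw [hd] at h1
  have hc := hH.1
  have h0 : H.dist x m = 0 ∨ H.dist m y = 0 := by omega
  rcases h0 with h0 | h0
  · left
    have : x = m := hc.dist_eq_zero_iff.1 h0
    subst this
    rw [SimpleGraph.dist_comm (u := y) (v := x), hd, SimpleGraph.dist_comm (u := x) (v := z),
      SimpleGraph.dist_comm (u := y) (v := z)] at h2
    omega
  · right
    have : m = y := hc.dist_eq_zero_iff.1 h0
    subst this
    rw [SimpleGraph.dist_comm (u := m) (v := x), hd] at h3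
    omega

theorem conv_half (hH : IsMedianGraph H) {x y : W} (hxy : H.Adj x y) :
    Conv H {z | H.dist z x < H.dist z y} := by
  intro u hu w hw z hz
  simp only [Set.mem_setOf_eq] at hu hw ⊢
  by_contra hcon
  have hc := hH.1
  have tri : ∀ a b c, H.dist a c ≤ H.dist a b + H.dist b c := fun a b c => hc.dist_triangle
  have sym : ∀ a b, H.dist a b = H.dist b a := fun a b => SimpleGraph.dist_comm
  have hd := dist_adj hxy
  have bu := bip hH hxy u
  have bw := bip hH hxy w
  have bz := bip hH hxy z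
  obtain ⟨a, ⟨a1, a2, a3⟩, -⟩ := hH.2 z u y
  obtain ⟨h, ⟨h1, h2, h3⟩, -⟩ := hH.2 a w y
  obtain ⟨c, ⟨c1, c2, c3⟩, -⟩ := hH.2 u w x
  obtain ⟨m, -, hm⟩ := hH.2 u w y
  have bc := bip hH hxy c
  have bh := bip hH hxy h
  have ba := bip hH hxy a
  -- symmetric forms
  have s1 := sym z a
  have s2 := sym a u
  have s3 := sym z u
  have s4 := sym a y
  have s5 := sym u y
  have s6 := sym y z
  have s7 := sym a h
  have s8 := sym h w
  have s9 := sym a w
  have s10 := sym h y
  have s11 := sym w y
  have s12 := sym y a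
  have s13 := sym u c
  have s14 := sym c w
  have s15 := sym u w
  have s16 := sym c x
  have s17 := sym w x
  have s18 := sym x u
  have s19 := sym c y
  have s20 := sym h x
  have s21 := sym a x
  have s22 := sym z x
  have s23 := sym z w
  have s24 := sym h u
  have t1 := tri z a x
  have t2 := tri u a w
  have t3 := tri a z w
  have t4 := tri a h x
  have t5 := tri u h w
  have t6 := tri u a h
  have t7 := tri u h y
  have t8 := tri u c y
  have t9 := tri w c y
  have eh : h = m := by
    apply hm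
    refine ⟨?_, ?_, ?_⟩ <;> omega
  have ec : c = m := by
    apply hm
    refine ⟨?_, ?_, ?_⟩ <;> omega
  have hch : c = h := ec.trans eh.symm
  subst hch
  omega

theorem conv_half_compl (hH : IsMedianGraph H) {x y : W} (hxy : H.Adj x y) :
    Conv H {z | H.dist z x < H.dist z y}ᶜ := by
  have : {z | H.dist z x < H.dist z y}ᶜ = {z | H.dist z y < H.dist z x} := by
    ext z
    simp only [Set.mem_compl_iff, Set.mem_setOf_eq]
    have := bip hH hxy z
    omega
  rw [this]
  exact conv_half hH hxy.symm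

/-- The index set: the half-spaces containing the base vertex `o`. -/
abbrev Half (H : SimpleGraph W) (o : W) : Type := {S : Set W // Conv H S ∧ Conv H Sᶜ ∧ o ∈ S}

theorem exists_half (hH : IsMedianGraph H) (o : W) {x y : W} (hxy : H.Adj x y) :
    ∃ S : Half H o, (∀ p, p ∈ S.1 ↔ H.dist p x < H.dist p y) ∨
      (∀ p, p ∈ S.1 ↔ H.dist p y < H.dist p x) := by
  rcases bip hH hxy o with h | h
  · exact ⟨⟨{z | H.dist z x < H.dist z y}, conv_half hH hxy, conv_half_compl hH hxy,
      by simp only [Set.mem_setOf_eq]; omega⟩, Or.inl fun p => Iff.rfl⟩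
  · exact ⟨⟨{z | H.dist z y < H.dist z x}, conv_half hH hxy.symm, conv_half_compl hH hxy.symm,
      by simp only [Set.mem_setOf_eq]; omega⟩, Or.inr fun p => Iff.rfl⟩

theorem half_unique (hH : IsMedianGraph H) {S : Set W} (hS : Conv H S) (hS' : Conv H Sᶜ) {x y : W}
    (hxy : H.Adj x y) (hx : x ∈ S) (hy : y ∉ S) (p : W) :
    p ∈ S ↔ H.dist p x < H.dist p y := by
  have hd := dist_adj hxy
  have hd' := dist_adj hxy.symm
  have hb := bip hH hxy p
  constructor
  · intro hp
    by_contra hcon
    exact hy (hS p hp x hx y (by omega))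
  · intro h
    by_contra hp
    exact hS' p hp y hy x (by omega) hx

theorem exists_next (hH : IsMedianGraph H) {x y : W} (hxy : x ≠ y) :
    ∃ z, H.Adj x z ∧ H.dist z y + 1 = H.dist x y := by
  obtain ⟨p, hp⟩ := hH.1.exists_walk_length_eq_dist x y
  cases p with
  | nil => exact absurd rfl hxy
  | @cons _ z _ h q =>
    refine ⟨z, h, ?_⟩
    have h1 := SimpleGraph.dist_le q
    have h2 : H.dist x y ≤ H.dist x z + H.dist z y := hH.1.dist_triangle
    rw [dist_adj h] at h2
    rw [SimpleGraph.Walk.length_cons] at hp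
    omega

theorem sep_of_next (hH : IsMedianGraph H) {o x y z : W} (hxz : H.Adj x z)
    (hz : H.dist z y + 1 = H.dist x y) {S : Half H o}
    (hS : (∀ p, p ∈ S.1 ↔ H.dist p x < H.dist p z) ∨ (∀ p, p ∈ S.1 ↔ H.dist p z < H.dist p x)) :
    (x ∈ S.1) ≠ (y ∈ S.1) := by
  have h1 : H.dist x x = 0 := SimpleGraph.dist_self
  have h2 := dist_adj hxz
  have h3 : H.dist y z = H.dist z y := SimpleGraph.dist_comm
  have h4 : H.dist y x = H.dist x y := SimpleGraph.dist_comm
  rw [ne_eq, eq_iff_iff]
  rcases hS with hS | hS <;> rw [hS, hS] <;> omega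

/-- Every finite median graph is the i-graph of a well-covered graph. -/
theorem median_hasWellCoveredSeed [Finite W] (hH : IsMedianGraph H) : HasWellCoveredSeed H := by
  classical
  obtain ⟨o⟩ := hH.1.nonempty
  have hfin : Finite (Half H o) := Subtype.finite
  let ind : W → (∀ _ : Half H o, Prop) := fun x S => x ∈ S.1
  let M : Set (∀ _ : Half H o, Prop) := Set.range ind
  have hinj : Function.Injective ind := by
    intro x y h
    by_contra hne
    obtain ⟨z, hz, hd⟩ := exists_next hH hne
    obtain ⟨S, hS⟩ := exists_half hH o hz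
    exact sep_of_next hH hz hd hS (congrFun h S)
  have hM : TwoDecomposable M := by
    refine twoDecomposable_of_majority (A := fun _ : Half H o => Prop) (M := M)
      ⟨ind o, o, rfl⟩ (fun _ a b c => (a ∧ b) ∨ (b ∧ c) ∨ (a ∧ c)) ?_ ?_ ?_ ?_
    · intro i x y
      apply propext
      tauto
    · intro i x y
      apply propext
      tauto
    · intro i x y
      apply propext
      tauto
    · rintro _ ⟨u, rfl⟩ _ ⟨v, rfl⟩ _ ⟨w, rfl⟩
      obtain ⟨m, ⟨h1, h2, h3⟩, -⟩ := hH.2 u v w
      refine ⟨m, ?_⟩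
      funext S
      apply propext
      have c1 := S.2.1
      have c2 := S.2.2.1
      change m ∈ S.1 ↔ (u ∈ S.1 ∧ v ∈ S.1) ∨ (v ∈ S.1 ∧ w ∈ S.1) ∨ (u ∈ S.1 ∧ w ∈ S.1)
      constructor
      · intro hm
        by_contra hcon
        have hcase : (u ∉ S.1 ∧ v ∉ S.1) ∨ (v ∉ S.1 ∧ w ∉ S.1) ∨ (w ∉ S.1 ∧ u ∉ S.1) := by tauto
        rcases hcase with ⟨a, b⟩ | ⟨a, b⟩ | ⟨a, b⟩
        · exact c2 u a v b m h1 hm
        · exact c2 v a w b m h2 hm
        · exact c2 w a u b m h3 hm
      · rintro (⟨a, b⟩ | ⟨a, b⟩ | ⟨a, b⟩)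
        · exact c1 u a v b m h1
        · exact c1 v a w b m h2
        · exact c1 w b u a m h3
  obtain ⟨V, hV, G, hwc, ⟨e⟩⟩ := hasWellCoveredSeed_hammingGraph hM
  refine ⟨V, hV, G, hwc, ⟨RelIso.trans ?_ e⟩⟩
  let f : W → M := fun x => ⟨ind x, x, rfl⟩
  have hf : Function.Bijective f := by
    constructor
    · intro x y h
      exact hinj (congrArg Subtype.val h)
    · rintro ⟨_, x, rfl⟩
      exact ⟨x, rfl⟩
  refine { toEquiv := Equiv.ofBijective f hf, map_rel_iff' := fun {x y} => ?_ }
  change (∃! S : Half H o, (x ∈ S.1) ≠ (y ∈ S.1)) ↔ H.Adj x y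
  constructor
  · rintro ⟨S, hS, hu⟩
    have hne : x ≠ y := by
      rintro rfl
      exact hS rfl
    by_contra hadj
    obtain ⟨z, hxz, hz⟩ := exists_next hH hne
    have hzy : z ≠ y := by
      rintro rfl
      exact hadj hxz
    obtain ⟨z', hzz, hz'⟩ := exists_next hH hzy
    obtain ⟨S1, hS1⟩ := exists_half hH o hxz
    obtain ⟨S2, hS2⟩ := exists_half hH o hzz
    have e1 : S1 = S := hu S1 (sep_of_next hH hxz hz hS1)
    have hxz' : H.dist z x + 1 = H.dist z' x ∧ (x ∈ S2.1 ↔ z ∈ S2.1) := by
      have t1 : H.dist x y ≤ H.dist x z' + H.dist z' y := hH.1.dist_triangle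
      have t2 : H.dist x z' ≤ H.dist x z + H.dist z z' := hH.1.dist_triangle
      have d1 := dist_adj hxz
      have d2 := dist_adj hzz
      have s1 : H.dist z x = H.dist x z := SimpleGraph.dist_comm
      have s2 : H.dist z' x = H.dist x z' := SimpleGraph.dist_comm
      have s3 : H.dist z z = 0 := SimpleGraph.dist_self
      refine ⟨by omega, ?_⟩
      rcases hS2 with h | h <;> rw [h, h] <;> omega
    have e2 : S2 = S := by
      apply hu
      intro h
      have h1 := sep_of_next hH hzz hz' hS2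
      apply h1
      rw [← h]
      exact (propext hxz'.2).symm
    have h3 : (x ∈ S1.1) ≠ (z ∈ S1.1) := by
      have d1 := dist_adj hxz
      have s1 : H.dist z x = H.dist x z := SimpleGraph.dist_comm
      have s3 : H.dist z z = 0 := SimpleGraph.dist_self
      have s4 : H.dist x x = 0 := SimpleGraph.dist_self
      rw [ne_eq, eq_iff_iff]
      rcases hS1 with h | h <;> rw [h, h] <;> omega
    rw [e1, ← e2] at h3
    exact h3 (propext hxz'.2)
  · intro hadj
    obtain ⟨S, hS⟩ := exists_half hH o hadj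
    refine ⟨S, ?_, fun T hT => ?_⟩
    · refine sep_of_next hH hadj ?_ hS
      rw [dist_adj hadj, SimpleGraph.dist_self]
    · apply Subtype.ext
      have hcases : (∀ p, p ∈ T.1 ↔ H.dist p x < H.dist p y) ∨
          (∀ p, p ∈ T.1 ↔ H.dist p y < H.dist p x) := by
        by_cases hx : x ∈ T.1
        · have hy : y ∉ T.1 := fun hy => hT (propext ⟨fun _ => hy, fun _ => hx⟩)
          exact Or.inl (half_unique hH T.2.1 T.2.2.1 hadj hx hy)
        · have hy : y ∈ T.1 := by
            by_contra hy
            exact hT (propext ⟨fun h => absurd h hx, fun h => absurd h hy⟩)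
          exact Or.inr (half_unique hH T.2.1 T.2.2.1 hadj.symm hy hx)
      have hoT := T.2.2.2
      have hoS := S.2.2.2
      ext p
      rcases hS with hS | hS <;> rcases hcases with hC | hC
      · rw [hS, hC]
      · rw [hS] at hoS
        rw [hC] at hoT
        omega
      · rw [hS] at hoS
        rw [hC] at hoT
        omega
      · rw [hS, hC]

end

end Pool.Agent.Lib.MP_89d95d_co
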